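import Pool.Agent.Q88.MF.Stm

/-!
# Project MF (helper88), job DEB: lower bound of the Jacobian determinant
-/

set_option autoImplicit false

open Set MeasureTheory Filter Topology

namespace Pool.Agent.Q163.MFDEB

open Pool.Agent.Q88.MF

/-- **Job DEB.** -/
theorem deb (h : S_dea) (h1 : S_coo) (h2 : S_inc) : S_deb := by
  intro d a x ha hx hF
  set p0 : E (d + 1) →L[ℝ] ℝ := EuclideanSpace.proj (0 : Fin (d + 1)) with hp0
  have hp0v : ∀ v : E (d + 1), p0 v = v 0 := fun v => rfl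
  set g : E (d + 1) →L[ℝ] ℝ := p0.comp (fderiv ℝ (F d a) x) with hg
  have hGd : HasFDerivAt (fun y => F d a y 0) g x :=
    p0.hasFDerivAt.comp x hF.hasFDerivAt
  have hfd : ∀ v, fderiv ℝ (F d a) x v = v + (g v - v 0) • e0 d := by
    have hFe : F d a = fun y => y + (F d a y 0 - p0 y) • e0 d := by
      funext y
      rw [(h1 d a y).1]
      rfl
    have hd : HasFDerivAt (fun y => y + (F d a y 0 - p0 y) • e0 d)
        (ContinuousLinearMap.id ℝ (E (d + 1)) + (g - p0).smulRight (e0 d)) x :=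
      (hasFDerivAt_id x).add ((hGd.sub p0.hasFDerivAt).smul_const (e0 d))
    rw [← hFe] at hd
    intro v
    rw [hd.fderiv]
    simp [hp0v]
  have hdet := h d g _ hfd
  rw [hdet]
  have hline : HasDerivAt (fun τ : ℝ => hh a (x 0 + τ) (rho x)) (g (e0 d)) 0 := by
    have h3 : HasLineDerivAt ℝ (fun y => F d a y 0) (g (e0 d)) x (e0 d) :=
      hGd.hasLineDerivAt (e0 d)
    have h4 : HasDerivAt (fun τ : ℝ => F d a (x + τ • e0 d) 0) (g (e0 d)) 0 := h3
    have h5 : (fun τ : ℝ => F d a (x + τ • e0 d) 0) = fun τ : ℝ => hh a (x 0 + τ) (rho x) := by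
      funext τ
      rw [(h1 d a (x + τ • e0 d)).1, ((h1 d a x).2.2.2 τ).1, ((h1 d a x).2.2.2 τ).2]
    rwa [h5] at h4
  rcases lt_or_gt_of_ne hx with hneg | hpos
  · have hs : 0 < -(x 0) := by linarith
    have hodd : ∀ s r : ℝ, 0 < s → hh a (-s) r = - hh a s r := fun s r hs =>
      (h2 a s (s + 1) r ha hs (by linarith)).2.2.1
    have hPe : P a (x 0) (rho x) = P a (-(x 0)) (rho x) := by
      have := (h2 a (-(x 0)) (-(x 0) + 1) (rho x) ha hs (by linarith)).2.2.2
      rw [neg_neg] at this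
      exact this
    refine ⟨hPe ▸ (h2 a (-(x 0)) (-(x 0) + 1) (rho x) ha hs (by linarith)).1, ?_⟩
    have ht := hline.tendsto_slope_zero_left
    refine ge_of_tendsto ht ?_
    filter_upwards [self_mem_nhdsWithin] with τ hτ
    have hτ0 : τ < 0 := hτ
    have hi := (h2 a (-(x 0)) (-(x 0) - τ) (rho x) ha hs (by linarith)).2.1
    have e1 : hh a (x 0 + (0 + τ)) (rho x) = - hh a (-(x 0) - τ) (rho x) := by
      rw [← hodd _ _ (by linarith)]
      congr 1
      ring
    have e2 : hh a (x 0 + 0) (rho x) = - hh a (-(x 0)) (rho x) := by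
      rw [← hodd _ _ hs]
      congr 1
      ring
    rw [hPe, e1, e2, smul_eq_mul]
    have e3 : τ⁻¹ * (-hh a (-x 0 - τ) (rho x) - -hh a (-x 0) (rho x))
        = (hh a (-x 0 - τ) (rho x) - hh a (-x 0) (rho x)) / (-τ) := by
      have : τ ≠ 0 := hτ0.ne
      field_simp
      ring
    rw [e3, le_div_iff₀ (by linarith)]
    calc P a (-x 0) (rho x) * -τ = P a (-(x 0)) (rho x) * (-(x 0) - τ - -(x 0)) := by ring
      _ ≤ _ := hi
  · refine ⟨(h2 a (x 0) (x 0 + 1) (rho x) ha hpos (by linarith)).1, ?_⟩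
    have ht := hline.tendsto_slope_zero_right
    refine ge_of_tendsto ht ?_
    filter_upwards [self_mem_nhdsWithin] with τ hτ
    have hτ0 : 0 < τ := hτ
    have hi := (h2 a (x 0) (x 0 + τ) (rho x) ha hpos (by linarith)).2.1
    rw [zero_add, add_zero, smul_eq_mul, inv_mul_eq_div, le_div_iff₀ hτ0]
    calc P a (x 0) (rho x) * τ = P a (x 0) (rho x) * (x 0 + τ - x 0) := by ring
      _ ≤ _ := hi

end Pool.Agent.Q163.MFDEB
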